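import Pool.Agent.H586.AF.A

/-!
# Project AF (helper586), task AF-R, by helper722: reflection formulas for the one dimensional heat kernels
-/

set_option autoImplicit false

open MeasureTheory Matrix Finset Filter Topology

namespace Pool.Agent.H722.AF

open Pool.Agent.H586.AF

section ode

attribute [local instance] Matrix.linftyOpNormedRing Matrix.linftyOpNormedAlgebra

theorem exp_entry {n : ℕ} (A : Matrix (Fin n) (Fin n) ℝ) (t : ℝ) (i k : Fin n) :
    HasDerivAt (fun s : ℝ => (NormedSpace.exp (s • A)) i k) ((NormedSpace.exp (t • A) * A) i k) t := by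
  have h := hasDerivAt_exp_smul_const (𝕂 := ℝ) A t
  let e : Matrix (Fin n) (Fin n) ℝ →ₗ[ℝ] ℝ := Matrix.entryLinearMap ℝ ℝ i k
  have h2 := (LinearMap.toContinuousLinearMap e).hasFDerivAt.comp_hasDerivAt t h
  exact h2

end ode

theorem ode {n : ℕ} (A : Matrix (Fin n) (Fin n) ℝ) (P : ℝ → Matrix (Fin n) (Fin n) ℝ)
    (h0 : P 0 = 1) (hd : ∀ t i j, HasDerivAt (fun s => P s i j) (-(A * P t) i j) t) (t : ℝ) :
    P t = NormedSpace.exp ((-t) • A) := by
  have h1 : ∀ i j, ∀ t, HasDerivAt (fun s : ℝ => (NormedSpace.exp (s • A) * P s) i j) 0 t := by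
    intro i j t
    have h2 : ∀ k ∈ (Finset.univ : Finset (Fin n)),
        HasDerivAt (fun s : ℝ => (NormedSpace.exp (s • A)) i k * P s k j)
          ((NormedSpace.exp (t • A) * A) i k * P t k j +
            (NormedSpace.exp (t • A)) i k * (-(A * P t) k j)) t :=
      fun k _ => (exp_entry A t i k).mul (hd t k j)
    have h3 := HasDerivAt.fun_sum h2
    have h4 : ∑ k, ((NormedSpace.exp (t • A) * A) i k * P t k j +
        (NormedSpace.exp (t • A)) i k * (-(A * P t) k j)) = 0 := by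
      rw [Finset.sum_add_distrib]
      have e1 : ∑ k, (NormedSpace.exp (t • A) * A) i k * P t k j =
          (NormedSpace.exp (t • A) * A * P t) i j := by rw [Matrix.mul_apply]
      have e2 : ∑ k, (NormedSpace.exp (t • A)) i k * (-(A * P t) k j) =
          -(NormedSpace.exp (t • A) * (A * P t)) i j := by
        rw [Matrix.mul_apply, ← Finset.sum_neg_distrib]
        exact Finset.sum_congr rfl fun k _ => by ring
      rw [e1, e2, Matrix.mul_assoc]
      ring
    rw [h4] at h3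
    exact h3.congr_of_eventuallyEq (Eventually.of_forall fun s => Matrix.mul_apply)
  have h2 : ∀ t, NormedSpace.exp (t • A) * P t = 1 := by
    intro t
    ext i j
    have := is_const_of_deriv_eq_zero (fun s => (h1 i j s).differentiableAt)
      (fun s => (h1 i j s).deriv) t 0
    rw [this, h0, zero_smul, NormedSpace.exp_zero, Matrix.mul_one]
  have h3 : NormedSpace.exp ((-t) • A) * NormedSpace.exp (t • A) = 1 := by
    rw [← Matrix.exp_add_of_commute]
    · rw [← add_smul, neg_add_cancel, zero_smul, NormedSpace.exp_zero]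
    · exact ((Commute.refl A).smul_left _).smul_right _
  calc P t = (NormedSpace.exp ((-t) • A) * NormedSpace.exp (t • A)) * P t := by
        rw [h3, Matrix.one_mul]
    _ = NormedSpace.exp ((-t) • A) := by rw [Matrix.mul_assoc, h2, Matrix.mul_one]


/-! ### the heat kernel of the cycle -/

theorem two_cos (φ z : ℝ) : 2 * Real.cos φ * Real.cos (φ * z) =
    Real.cos (φ * (z + 1)) + Real.cos (φ * (z - 1)) := by
  rw [mul_add, mul_sub, mul_one, Real.cos_add, Real.cos_sub]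
  ring

theorem rr_neg (L : ℕ) (t : ℝ) (z : ℤ) : rr L t (-z) = rr L t z := by
  unfold rr
  congr 1
  refine Finset.sum_congr rfl fun n _ => ?_
  push_cast
  rw [mul_neg, Real.cos_neg]

theorem rr_add (L : ℕ) (hL : 1 ≤ L) (t : ℝ) (z : ℤ) : rr L t (z + 2 * L) = rr L t z := by
  have hL0 : (L : ℝ) ≠ 0 := by
    have : (1 : ℝ) ≤ L := by exact_mod_cast hL
    positivity
  unfold rr
  congr 1
  refine Finset.sum_congr rfl fun n _ => ?_
  have h : Real.pi * n / L * ((z + 2 * L : ℤ) : ℝ) = Real.pi * n / L * z + n * (2 * Real.pi) := by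
    push_cast
    field_simp
  rw [h, Real.cos_add_nat_mul_two_pi]

theorem rr_deriv (L : ℕ) (t : ℝ) (z : ℤ) : HasDerivAt (fun s => rr L s z)
    (rr L t (z + 1) + rr L t (z - 1) - 2 * rr L t z) t := by
  have h1 : ∀ n ∈ Finset.range (2 * L), HasDerivAt
      (fun s : ℝ => Real.exp (-s * ek (Real.pi * n / L)) * Real.cos (Real.pi * n / L * z))
      (Real.exp (-t * ek (Real.pi * n / L)) * (-(ek (Real.pi * n / L))) *
        Real.cos (Real.pi * n / L * z)) t := by
    intro n _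
    have h2 : HasDerivAt (fun s : ℝ => -s * ek (Real.pi * n / L)) (-(ek (Real.pi * n / L))) t := by
      have h3 := (hasDerivAt_neg t).mul_const (ek (Real.pi * n / L))
      rw [neg_one_mul] at h3
      exact h3
    exact h2.exp.mul_const _
  have h2 := (HasDerivAt.fun_sum h1).const_mul (1 / (2 * (L : ℝ)))
  have h3 : 1 / (2 * (L : ℝ)) * ∑ n ∈ Finset.range (2 * L),
      Real.exp (-t * ek (Real.pi * n / L)) * (-(ek (Real.pi * n / L))) *
        Real.cos (Real.pi * n / L * z) =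
      rr L t (z + 1) + rr L t (z - 1) - 2 * rr L t z := by
    unfold rr
    rw [← mul_add, ← Finset.sum_add_distrib, mul_left_comm (2 : ℝ), ← mul_sub, Finset.mul_sum (a := (2:ℝ)),
      ← Finset.sum_sub_distrib]
    congr 1
    refine Finset.sum_congr rfl fun n _ => ?_
    have h4 := two_cos (Real.pi * n / L) z
    push_cast
    rw [ek]
    linear_combination Real.exp (-t * (2 - 2 * Real.cos (Real.pi * n / L))) * h4
  rw [h3] at h2
  exact h2

theorem dirichlet (θ : ℝ) (N : ℕ) : 2 * Real.sin (θ / 2) * ∑ n ∈ Finset.range N, Real.cos (n * θ) =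
    Real.sin ((N - 1 / 2) * θ) + Real.sin (θ / 2) := by
  induction N with
  | zero =>
    have : ((0 : ℕ) - 1 / 2 : ℝ) * θ = -(θ / 2) := by push_cast; ring
    rw [this, Real.sin_neg]
    simp
  | succ N ih =>
    rw [Finset.sum_range_succ, mul_add, ih]
    have h1 : (((N + 1 : ℕ) : ℝ) - 1 / 2) * θ = N * θ + θ / 2 := by push_cast; ring
    have h2 : ((N : ℝ) - 1 / 2) * θ = N * θ - θ / 2 := by ring
    rw [h1, h2, Real.sin_add, Real.sin_sub]
    ring

theorem rr_zero (L : ℕ) (hL : 1 ≤ L) : rr L 0 0 = 1 := by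
  have hL0 : (0 : ℝ) < L := by
    have : (1 : ℝ) ≤ L := by exact_mod_cast hL
    linarith
  unfold rr
  simp
  field_simp

theorem rr_zero' (L : ℕ) {z : ℤ} (h0 : 0 < z) (h1 : z < 2 * L) : rr L 0 z = 0 := by
  have hz : (0 : ℝ) < z := by exact_mod_cast h0
  have hzL : (z : ℝ) < 2 * L := by exact_mod_cast h1
  have hL0 : (0 : ℝ) < L := by linarith
  have hs : 0 < Real.sin (Real.pi / L * z / 2) := by
    apply Real.sin_pos_of_pos_of_lt_pi
    · have := Real.pi_pos
      positivity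
    · have h2 : Real.pi / L * z / 2 = Real.pi * (z / (2 * L)) := by field_simp
      have h3 : (z : ℝ) / (2 * L) < 1 := by rw [div_lt_one (by positivity)]; exact hzL
      rw [h2]
      have := Real.pi_pos
      nlinarith
  have h2 := dirichlet (Real.pi / L * z) (2 * L)
  have h3 : (((2 * L : ℕ) : ℝ) - 1 / 2) * (Real.pi / L * z) =
      -(Real.pi / L * z / 2) + z * (2 * Real.pi) := by
    push_cast
    field_simp
    ring
  rw [h3, Real.sin_add_int_mul_two_pi, Real.sin_neg, neg_add_cancel] at h2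
  have h4 : ∑ n ∈ Finset.range (2 * L), Real.cos (n * (Real.pi / L * z)) = 0 := by
    rcases mul_eq_zero.1 h2 with h | h
    · exfalso; linarith
    · exact h
  unfold rr
  have h5 : ∑ n ∈ Finset.range (2 * L),
      Real.exp (-0 * ek (Real.pi * n / L)) * Real.cos (Real.pi * n / L * z) =
      ∑ n ∈ Finset.range (2 * L), Real.cos (n * (Real.pi / L * z)) := by
    refine Finset.sum_congr rfl fun n _ => ?_
    rw [neg_zero, zero_mul, Real.exp_zero, one_mul]
    congr 1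
    ring
  rw [h5, h4, mul_zero]

/-! ### the Laplacians -/

theorem sum_val {m : ℕ} (a : ℕ) (F : Fin m → ℝ) :
    ∑ i : Fin m, (if (i : ℕ) = a then F i else 0) = if h : a < m then F ⟨a, h⟩ else 0 := by
  by_cases h : a < m
  · rw [dif_pos h, Finset.sum_eq_single (⟨a, h⟩ : Fin m)]
    · rw [if_pos rfl]
    · intro b _ hb
      rw [if_neg]
      intro hba
      exact hb (Fin.ext hba)
    · intro hb
      exact absurd (Finset.mem_univ _) hb
  · rw [dif_neg h]
    refine Finset.sum_eq_zero fun i _ => ?_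
    rw [if_neg]
    have := i.2
    omega

theorem dm_mul (F : ℤ → ℝ) {n m : ℕ} (k : Fin n) :
    ∑ i : Fin m, dm n m k i * F ((i : ℕ) : ℤ) =
      (if (k : ℕ) < m then F ((k : ℕ) : ℤ) else 0) -
        (if 1 ≤ (k : ℕ) ∧ (k : ℕ) ≤ m then F (((k : ℕ) : ℤ) - 1) else 0) := by
  have e1 : ∀ i : Fin m, dm n m k i * F ((i : ℕ) : ℤ) =
      (if (i : ℕ) = (k : ℕ) then F ((i : ℕ) : ℤ) else 0) -
        (if (i : ℕ) + 1 = (k : ℕ) then F ((i : ℕ) : ℤ) else 0) := by
    intro i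
    unfold dm
    split_ifs <;> simp
  simp_rw [e1]
  rw [Finset.sum_sub_distrib, sum_val]
  have f1 : (if h : (k : ℕ) < m then F (((⟨(k : ℕ), h⟩ : Fin m) : ℕ) : ℤ) else 0) =
      if (k : ℕ) < m then F ((k : ℕ) : ℤ) else 0 := by
    by_cases h : (k : ℕ) < m
    · rw [dif_pos h, if_pos h]
    · rw [dif_neg h, if_neg h]
  have f2 : (∑ i : Fin m, if (i : ℕ) + 1 = (k : ℕ) then F ((i : ℕ) : ℤ) else 0) =
      if 1 ≤ (k : ℕ) ∧ (k : ℕ) ≤ m then F (((k : ℕ) : ℤ) - 1) else 0 := by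
    rcases Nat.eq_zero_or_pos (k : ℕ) with h | h
    · rw [if_neg (by omega)]
      refine Finset.sum_eq_zero fun i _ => ?_
      rw [if_neg (by omega)]
    · obtain ⟨a, ha⟩ : ∃ a, (k : ℕ) = a + 1 := ⟨(k : ℕ) - 1, by omega⟩
      rw [ha]
      have e2 : ∀ i : Fin m, (if (i : ℕ) + 1 = a + 1 then F ((i : ℕ) : ℤ) else 0) =
          (if (i : ℕ) = a then F ((i : ℕ) : ℤ) else 0) := by
        intro i
        simp only [Nat.add_right_cancel_iff]
      simp_rw [e2]
      rw [sum_val]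
      by_cases h : a < m
      · rw [dif_pos h, if_pos (by omega)]
        congr 1
        push_cast
        ring
      · rw [dif_neg h, if_neg (by omega)]
  rw [f1, f2]

theorem dmT_mul (G : ℤ → ℝ) {n m : ℕ} (i : Fin m) :
    ∑ k : Fin n, dm n m k i * G ((k : ℕ) : ℤ) =
      (if (i : ℕ) < n then G ((i : ℕ) : ℤ) else 0) -
        (if (i : ℕ) + 1 < n then G (((i : ℕ) : ℤ) + 1) else 0) := by
  have e1 : ∀ k : Fin n, dm n m k i * G ((k : ℕ) : ℤ) =
      (if (k : ℕ) = (i : ℕ) then G ((k : ℕ) : ℤ) else 0) -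
        (if (k : ℕ) = (i : ℕ) + 1 then G ((k : ℕ) : ℤ) else 0) := by
    intro k
    unfold dm
    simp only [eq_comm (a := (i : ℕ)), eq_comm (a := (i : ℕ) + 1)]
    split_ifs <;> simp
  simp_rw [e1]
  rw [Finset.sum_sub_distrib, sum_val, sum_val]
  have f1 : (if h : (i : ℕ) < n then G (((⟨(i : ℕ), h⟩ : Fin n) : ℕ) : ℤ) else 0) =
      if (i : ℕ) < n then G ((i : ℕ) : ℤ) else 0 := by
    by_cases h : (i : ℕ) < n
    · rw [dif_pos h, if_pos h]
    · rw [dif_neg h, if_neg h]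
  have f2 : (if h : (i : ℕ) + 1 < n then G (((⟨(i : ℕ) + 1, h⟩ : Fin n) : ℕ) : ℤ) else 0) =
      if (i : ℕ) + 1 < n then G (((i : ℕ) : ℤ) + 1) else 0 := by
    by_cases h : (i : ℕ) + 1 < n
    · rw [dif_pos h, if_pos h]
      push_cast
      rfl
    · rw [dif_neg h, if_neg h]
  rw [f1, f2]

theorem lDD_mul (L : ℕ) (hL : 2 ≤ L) (F : ℤ → ℝ) (h0 : F (-1) = 0) (h1 : F (L - 1) = 0)
    (i : Fin (L - 1)) : ∑ j : Fin (L - 1), lDD L i j * F ((j : ℕ) : ℤ) =
      2 * F ((i : ℕ) : ℤ) - F (((i : ℕ) : ℤ) - 1) - F (((i : ℕ) : ℤ) + 1) := by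
  have e1 : ∀ j : Fin (L - 1), lDD L i j * F ((j : ℕ) : ℤ) =
      ∑ k : Fin L, dm L (L - 1) k i * (dm L (L - 1) k j * F ((j : ℕ) : ℤ)) := by
    intro j
    unfold lDD
    rw [Matrix.mul_apply, Finset.sum_mul]
    exact Finset.sum_congr rfl fun k _ => by rw [Matrix.transpose_apply, mul_assoc]
  simp_rw [e1]
  rw [Finset.sum_comm]
  simp_rw [← Finset.mul_sum, dm_mul]
  have e2 : ∀ k : Fin L, (if (k : ℕ) < L - 1 then F ((k : ℕ) : ℤ) else 0) -
      (if 1 ≤ (k : ℕ) ∧ (k : ℕ) ≤ L - 1 then F (((k : ℕ) : ℤ) - 1) else 0) =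
      (fun z : ℤ => F z - F (z - 1)) ((k : ℕ) : ℤ) := by
    intro k
    have hk := k.2
    show _ = F ((k : ℕ) : ℤ) - F (((k : ℕ) : ℤ) - 1)
    congr 1
    · by_cases h : (k : ℕ) < L - 1
      · rw [if_pos h]
      · rw [if_neg h]
        have : ((k : ℕ) : ℤ) = L - 1 := by omega
        rw [this, h1]
    · by_cases h : 1 ≤ (k : ℕ) ∧ (k : ℕ) ≤ L - 1
      · rw [if_pos h]
      · rw [if_neg h]
        have : ((k : ℕ) : ℤ) - 1 = -1 := by omega
        rw [this, h0]
  simp_rw [e2]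
  have hi := i.2
  rw [dmT_mul (fun z : ℤ => F z - F (z - 1)), if_pos (by omega), if_pos (by omega)]
  simp only [add_sub_cancel_right]
  ring

theorem lNN_mul (L : ℕ) (hL : 2 ≤ L) (G : ℤ → ℝ) (h0 : G (-1) = G 0) (h1 : G L = G (L - 1))
    (k : Fin L) : ∑ j : Fin L, lNN L k j * G ((j : ℕ) : ℤ) =
      2 * G ((k : ℕ) : ℤ) - G (((k : ℕ) : ℤ) - 1) - G (((k : ℕ) : ℤ) + 1) := by
  have e1 : ∀ j : Fin L, lNN L k j * G ((j : ℕ) : ℤ) =
      ∑ i : Fin (L - 1), dm L (L - 1) k i * (dm L (L - 1) j i * G ((j : ℕ) : ℤ)) := by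
    intro j
    unfold lNN
    rw [Matrix.mul_apply, Finset.sum_mul]
    exact Finset.sum_congr rfl fun i _ => by rw [Matrix.transpose_apply, mul_assoc]
  simp_rw [e1]
  rw [Finset.sum_comm]
  simp_rw [← Finset.mul_sum, dmT_mul]
  have e2 : ∀ i : Fin (L - 1), (if (i : ℕ) < L then G ((i : ℕ) : ℤ) else 0) -
      (if (i : ℕ) + 1 < L then G (((i : ℕ) : ℤ) + 1) else 0) =
      (fun z : ℤ => G z - G (z + 1)) ((i : ℕ) : ℤ) := by
    intro i
    have hi := i.2
    rw [if_pos (by omega), if_pos (by omega)]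
  simp_rw [e2]
  have hk := k.2
  rw [dm_mul (fun z : ℤ => G z - G (z + 1))]
  have e3 : (if (k : ℕ) < L - 1 then (fun z : ℤ => G z - G (z + 1)) ((k : ℕ) : ℤ) else 0) =
      G ((k : ℕ) : ℤ) - G (((k : ℕ) : ℤ) + 1) := by
    by_cases h : (k : ℕ) < L - 1
    · rw [if_pos h]
    · rw [if_neg h]
      have e4 : ((k : ℕ) : ℤ) = L - 1 := by omega
      rw [e4, sub_add_cancel, h1, sub_self]
  have e5 : (if 1 ≤ (k : ℕ) ∧ (k : ℕ) ≤ L - 1 then
      (fun z : ℤ => G z - G (z + 1)) (((k : ℕ) : ℤ) - 1) else 0) =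
      G (((k : ℕ) : ℤ) - 1) - G ((k : ℕ) : ℤ) := by
    by_cases h : 1 ≤ (k : ℕ) ∧ (k : ℕ) ≤ L - 1
    · rw [if_pos h]
      simp only [sub_add_cancel]
    · rw [if_neg h]
      have e4 : ((k : ℕ) : ℤ) = 0 := by omega
      rw [e4, zero_sub, h0, sub_self]
  rw [e3, e5]
  ring

/-! ### the theorem -/

theorem tr : S_R := by
  intro L hL t
  have hL1 : 1 ≤ L := by omega
  constructor
  · -- Dirichlet conditions
    have h := ode (lDD L) (fun s => Matrix.of fun i j : Fin (L - 1) =>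
      rr L s (((i : ℕ) : ℤ) - ((j : ℕ) : ℤ)) - rr L s (((i : ℕ) : ℤ) + ((j : ℕ) : ℤ) + 2)) ?_ ?_ t
    · intro i j
      unfold hk
      rw [← h]
      rfl
    · ext i j
      have hi := i.2
      have hj := j.2
      rw [Matrix.of_apply]
      have h2 : rr L 0 (((i : ℕ) : ℤ) + ((j : ℕ) : ℤ) + 2) = 0 := rr_zero' L (by omega) (by omega)
      rw [h2, sub_zero]
      rcases lt_trichotomy (i : ℕ) (j : ℕ) with hij | hij | hij
      · rw [Matrix.one_apply_ne (by intro he; rw [he] at hij; exact lt_irrefl _ hij)]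
        rw [← rr_neg]
        exact rr_zero' L (by omega) (by omega)
      · have he : i = j := Fin.ext hij
        subst he
        rw [sub_self, rr_zero L hL1, Matrix.one_apply_eq]
      · rw [Matrix.one_apply_ne (by intro he; rw [he] at hij; exact lt_irrefl _ hij)]
        exact rr_zero' L (by omega) (by omega)
    · intro t i j
      have hd := (rr_deriv L t (((i : ℕ) : ℤ) - ((j : ℕ) : ℤ))).sub
        (rr_deriv L t (((i : ℕ) : ℤ) + ((j : ℕ) : ℤ) + 2))
      have hF := lDD_mul L hL (fun z : ℤ => rr L t (z - ((j : ℕ) : ℤ)) - rr L t (z + ((j : ℕ) : ℤ) + 2))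
        (by
          have e : (-1 : ℤ) - ((j : ℕ) : ℤ) = -(-1 + ((j : ℕ) : ℤ) + 2) := by ring
          simp only [e, rr_neg, sub_self])
        (by
          have e : ((L : ℤ) - 1 + ((j : ℕ) : ℤ) + 2) = -((L : ℤ) - 1 - ((j : ℕ) : ℤ)) + 2 * L := by ring
          simp only [e, rr_add L hL1, rr_neg, sub_self]) i
      have hM : (lDD L * (Matrix.of fun i j : Fin (L - 1) =>
          rr L t (((i : ℕ) : ℤ) - ((j : ℕ) : ℤ)) - rr L t (((i : ℕ) : ℤ) + ((j : ℕ) : ℤ) + 2))) i j =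
          ∑ k : Fin (L - 1), lDD L i k *
            (rr L t (((k : ℕ) : ℤ) - ((j : ℕ) : ℤ)) - rr L t (((k : ℕ) : ℤ) + ((j : ℕ) : ℤ) + 2)) := by
        rw [Matrix.mul_apply]
        rfl
      rw [hM, hF]
      refine HasDerivAt.congr_deriv hd ?_
      have e1 : ((i : ℕ) : ℤ) - ((j : ℕ) : ℤ) + 1 = ((i : ℕ) : ℤ) + 1 - ((j : ℕ) : ℤ) := by ring
      have e2 : ((i : ℕ) : ℤ) - ((j : ℕ) : ℤ) - 1 = ((i : ℕ) : ℤ) - 1 - ((j : ℕ) : ℤ) := by ring
      have e3 : ((i : ℕ) : ℤ) + ((j : ℕ) : ℤ) + 2 + 1 = ((i : ℕ) : ℤ) + 1 + ((j : ℕ) : ℤ) + 2 := by ring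
      have e4 : ((i : ℕ) : ℤ) + ((j : ℕ) : ℤ) + 2 - 1 = ((i : ℕ) : ℤ) - 1 + ((j : ℕ) : ℤ) + 2 := by ring
      rw [e1, e2, e3, e4]
      ring
  · -- free conditions
    have h := ode (lNN L) (fun s => Matrix.of fun i j : Fin L =>
      rr L s (((i : ℕ) : ℤ) - ((j : ℕ) : ℤ)) + rr L s (((i : ℕ) : ℤ) + ((j : ℕ) : ℤ) + 1)) ?_ ?_ t
    · intro i j
      unfold hk
      rw [← h]
      rfl
    · ext i j
      have hi := i.2
      have hj := j.2
      rw [Matrix.of_apply]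
      have h2 : rr L 0 (((i : ℕ) : ℤ) + ((j : ℕ) : ℤ) + 1) = 0 := rr_zero' L (by omega) (by omega)
      rw [h2, add_zero]
      rcases lt_trichotomy (i : ℕ) (j : ℕ) with hij | hij | hij
      · rw [Matrix.one_apply_ne (by intro he; rw [he] at hij; exact lt_irrefl _ hij)]
        rw [← rr_neg]
        exact rr_zero' L (by omega) (by omega)
      · have he : i = j := Fin.ext hij
        subst he
        rw [sub_self, rr_zero L hL1, Matrix.one_apply_eq]
      · rw [Matrix.one_apply_ne (by intro he; rw [he] at hij; exact lt_irrefl _ hij)]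
        exact rr_zero' L (by omega) (by omega)
    · intro t i j
      have hd := (rr_deriv L t (((i : ℕ) : ℤ) - ((j : ℕ) : ℤ))).add
        (rr_deriv L t (((i : ℕ) : ℤ) + ((j : ℕ) : ℤ) + 1))
      have hF := lNN_mul L hL (fun z : ℤ => rr L t (z - ((j : ℕ) : ℤ)) + rr L t (z + ((j : ℕ) : ℤ) + 1))
        (by
          have e : (-1 : ℤ) - ((j : ℕ) : ℤ) = -(0 + ((j : ℕ) : ℤ) + 1) := by ring
          have e' : (-1 : ℤ) + ((j : ℕ) : ℤ) + 1 = -(0 - ((j : ℕ) : ℤ)) := by ring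
          simp only [e, e', rr_neg]
          ring)
        (by
          have e : ((L : ℤ) + ((j : ℕ) : ℤ) + 1) = -((L : ℤ) - 1 - ((j : ℕ) : ℤ)) + 2 * L := by ring
          have e' : ((L : ℤ) - 1 + ((j : ℕ) : ℤ) + 1) = -((L : ℤ) - ((j : ℕ) : ℤ)) + 2 * L := by ring
          simp only [e, e', rr_add L hL1, rr_neg]
          ring) i
      have hM : (lNN L * (Matrix.of fun i j : Fin L =>
          rr L t (((i : ℕ) : ℤ) - ((j : ℕ) : ℤ)) + rr L t (((i : ℕ) : ℤ) + ((j : ℕ) : ℤ) + 1))) i j =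
          ∑ k : Fin L, lNN L i k *
            (rr L t (((k : ℕ) : ℤ) - ((j : ℕ) : ℤ)) + rr L t (((k : ℕ) : ℤ) + ((j : ℕ) : ℤ) + 1)) := by
        rw [Matrix.mul_apply]
        rfl
      rw [hM, hF]
      refine HasDerivAt.congr_deriv hd ?_
      have e1 : ((i : ℕ) : ℤ) - ((j : ℕ) : ℤ) + 1 = ((i : ℕ) : ℤ) + 1 - ((j : ℕ) : ℤ) := by ring
      have e2 : ((i : ℕ) : ℤ) - ((j : ℕ) : ℤ) - 1 = ((i : ℕ) : ℤ) - 1 - ((j : ℕ) : ℤ) := by ring
      have e3 : ((i : ℕ) : ℤ) + ((j : ℕ) : ℤ) + 1 + 1 = ((i : ℕ) : ℤ) + 1 + ((j : ℕ) : ℤ) + 1 := by ring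
      have e4 : ((i : ℕ) : ℤ) + ((j : ℕ) : ℤ) + 1 - 1 = ((i : ℕ) : ℤ) - 1 + ((j : ℕ) : ℤ) + 1 := by ring
      rw [e1, e2, e3, e4]
      ring

end Pool.Agent.H722.AF
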